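import Pool.Agent.W798.SP.Basic

/-!
# Pairs of elements of `A` have a rich ratio
-/

set_option autoImplicit false
set_option linter.unusedSectionVars false

open Finset
open scoped Classical Pointwise

namespace Pool.Agent.W925.SP

open Pool.Agent.W904.AK Pool.Agent.W798.SP

theorem tSR (hGC : S_GC) : S_SR := by
  intro A Ω γ _ p Q x X hA hp hmem
  have hx0 : ∀ ω, p ω ≠ 0 → x ω ≠ 0 := fun ω hω => (hA _ (hmem ω hω).1).ne'
  have hX0 : ∀ ω, p ω ≠ 0 → X ω ≠ 0 := fun ω hω => (hA _ (hmem ω hω).2).ne'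
  have key := hGC p Q (fun ω => X ω / x ω) x (fun _ => A / A) (fun _ l => fib A l) 2
    (en A : ℝ) hp
    (by
      intro ω hω
      refine ⟨Finset.div_mem_div (hmem ω hω).2 (hmem ω hω).1, ?_⟩
      simp only [fib, Finset.mem_filter]
      refine ⟨(hmem ω hω).1, ?_⟩
      rw [div_mul_cancel₀ _ (hx0 ω hω)]
      exact (hmem ω hω).2)
    (by
      intro ω _
      unfold en
      push_cast
      exact le_rfl)
  have e : CH p Q (fun ω => (X ω / x ω, x ω)) = CH p Q (fun ω => (x ω, X ω)) := by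
    apply CH_eq hp
    · exact Det.mk' (fun t => (t.2.2, t.2.1 * t.2.2)) fun ω hω => by
        rw [div_mul_cancel₀ _ (hx0 ω hω)]
    · exact Det.mk' (fun t => (t.2.2 / t.2.1, t.2.1)) fun ω _ => rfl
  rw [e] at key
  push_cast at key
  linarith

end Pool.Agent.W925.SP
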